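import Pool.Agent.Y228.HX.Stm

set_option autoImplicit false

/-! # Project HX: the lattice points of the dilations of a compact face -/

namespace Pool.Agent.Y212.HX

open Pool.Agent.Y228.HX

/-- the number of elements of a disjoint union -/
theorem ncard_sum {α β : Type} (S : Set α) (s : Finset β) (P : β → Prop)
    [DecidablePred P] (T : β → Set α) (hfin : S.Finite)
    (h : ∀ x, x ∈ S ↔ ∃ b ∈ s, P b ∧ x ∈ T b)
    (hu : ∀ b ∈ s, ∀ b' ∈ s, P b → P b' → ∀ x, x ∈ T b → x ∈ T b' → b = b') :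
    S.ncard = ∑ b ∈ s, if P b then (T b).ncard else 0 := by
  classical
  have hT : ∀ b ∈ s.filter P, (T b).Finite := by
    intro b hb
    rw [Finset.mem_filter] at hb
    exact hfin.subset fun x hx => (h x).mpr ⟨b, hb.1, hb.2, hx⟩
  have hS : hfin.toFinset = (s.filter P).biUnion fun b =>
      if hb : (T b).Finite then hb.toFinset else ∅ := by
    ext x
    rw [Set.Finite.mem_toFinset, h, Finset.mem_biUnion]
    constructor
    · rintro ⟨b, hb, hP, hx⟩
      have hbf : b ∈ s.filter P := Finset.mem_filter.mpr ⟨hb, hP⟩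
      refine ⟨b, hbf, ?_⟩
      rw [dif_pos (hT b hbf)]
      exact (Set.Finite.mem_toFinset _).mpr hx
    · rintro ⟨b, hb, hx⟩
      rw [dif_pos (hT b hb)] at hx
      rw [Finset.mem_filter] at hb
      exact ⟨b, hb.1, hb.2, (Set.Finite.mem_toFinset _).mp hx⟩
  rw [Set.ncard_eq_toFinset_card _ hfin, hS, Finset.card_biUnion, ← Finset.sum_filter]
  · refine Finset.sum_congr rfl fun b hb => ?_
    rw [dif_pos (hT b hb), Set.ncard_eq_toFinset_card _ (hT b hb)]
  · intro b hb b' hb' hne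
    rw [Function.onFun, dif_pos (hT b hb), dif_pos (hT b' hb'), Finset.disjoint_left]
    intro x hx hx'
    rw [Set.Finite.mem_toFinset] at hx hx'
    have h1 := Finset.mem_filter.mp hb
    have h2 := Finset.mem_filter.mp hb'
    exact hne (hu b h1.1 b' h2.1 h1.2 h2.2 x hx hx')

theorem finite_Dil0 {R N : ℕ} (v : Fin R → Fin N → ℕ) (κ : Finset (Fin R)) (k : ℕ) :
    (Dil0 v κ k).Finite := by
  refine (Set.finite_Icc (0 : Fin N → ℤ) (fun i => (k : ℤ) * ∑ j, (v j i : ℤ))).subset ?_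
  rintro x ⟨l, -, h0, hx, hs⟩
  have hlk : ∀ j, l j ≤ k := fun j =>
    (Finset.single_le_sum (fun j _ => h0 j) (Finset.mem_univ j)).trans hs
  rw [Set.mem_Icc]
  constructor
  · intro i
    have : (0 : ℚ) ≤ (x i : ℚ) := by
      rw [hx]
      exact Finset.sum_nonneg fun j _ => mul_nonneg (h0 j) (Nat.cast_nonneg _)
    exact_mod_cast this
  · intro i
    have : (x i : ℚ) ≤ (((k : ℤ) * ∑ j, (v j i : ℤ) : ℤ) : ℚ) := by
      rw [hx]
      push_cast
      rw [Finset.mul_sum]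
      exact Finset.sum_le_sum fun j _ => mul_le_mul_of_nonneg_right (hlk j) (Nat.cast_nonneg _)
    exact_mod_cast this

/-- the open cone with the additional vertex `0` -/
theorem mem_rel0 {r N : ℕ} (v : Fin r → Fin N → ℕ) (I : Finset (Fin r)) (k : ℕ) (x : Fin N → ℤ) :
    x ∈ Rel (Fin.cons 0 v : Fin (r + 1) → Fin N → ℕ) (insert 0 (I.map (Fin.succEmb r))) k ↔
      ∃ μ : Fin r → ℚ, (∀ j, j ∉ I → μ j = 0) ∧ (∀ j ∈ I, 0 < μ j) ∧
        (∀ i, (x i : ℚ) = ∑ j, μ j * (v j i : ℚ)) ∧ ∑ j, μ j < (k : ℚ) := by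
  have hm : ∀ j : Fin r, j.succ ∈ insert 0 (I.map (Fin.succEmb r)) ↔ j ∈ I := by
    intro j
    rw [Finset.mem_insert, Finset.mem_map]
    constructor
    · rintro (h | ⟨i, hi, h⟩)
      · exact absurd h (Fin.succ_ne_zero j)
      · have : i = j := Fin.succ_injective _ h
        rwa [← this]
    · intro h
      exact Or.inr ⟨j, h, rfl⟩
  constructor
  · rintro ⟨l, h0, hp, hx, hk⟩
    refine ⟨fun j => l j.succ, fun j hj => h0 _ (fun h => hj ((hm j).mp h)),
      fun j hj => hp _ ((hm j).mpr hj), fun i => ?_, ?_⟩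
    · rw [hx, Fin.sum_univ_succ]
      simp
    · have h1 : 0 < l 0 := hp 0 (Finset.mem_insert_self _ _)
      rw [hk, Fin.sum_univ_succ]
      linarith
  · rintro ⟨μ, h0, hp, hx, hk⟩
    refine ⟨Fin.cons ((k : ℚ) - ∑ j, μ j) μ, fun j => ?_, fun j => ?_, fun i => ?_, ?_⟩
    · refine Fin.cases (fun h => absurd (Finset.mem_insert_self _ _) h) (fun j h => ?_) j
      rw [Fin.cons_succ]
      exact h0 j fun h' => h ((hm j).mpr h')
    · refine Fin.cases (fun _ => ?_) (fun j h => ?_) j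
      · rw [Fin.cons_zero]
        linarith
      · rw [Fin.cons_succ]
        exact hp j ((hm j).mp h)
    · rw [hx, Fin.sum_univ_succ]
      simp
    · rw [Fin.sum_univ_succ]
      simp

theorem t_EHR : S_LP → S_EHR := by
  classical
  intro hLP r N v ω hG wk mk hwk hmk hmk0 κ hκ k
  -- the level is determined by the point
  have lev : ∀ (μ : Fin r → ℚ), (∀ j, j ∉ κ → μ j = 0) →
      ∑ i, wk i * (∑ j, μ j * (v j i : ℚ)) = mk * ∑ j, μ j := by
    intro μ hμ
    have h1 : ∑ i, wk i * (∑ j, μ j * (v j i : ℚ)) = ∑ j, μ j * ∑ i, wk i * (v j i : ℚ) := by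
      simp_rw [Finset.mul_sum]
      rw [Finset.sum_comm]
      refine Finset.sum_congr rfl fun j _ => Finset.sum_congr rfl fun i _ => by ring
    rw [h1, Finset.mul_sum]
    refine Finset.sum_congr rfl fun j _ => ?_
    by_cases hj : j ∈ κ
    · rw [(hκ j).mp hj, mul_comm]
    · rw [hμ j hj, zero_mul, mul_zero]
  have uni : ∀ (I I' : Finset (Fin r)) (μ μ' : Fin r → ℚ), I ⊆ κ → I' ⊆ κ → TT v ω I →
      TT v ω I' → (∀ j, j ∉ I → μ j = 0) → (∀ j ∈ I, 0 < μ j) → (∀ j, j ∉ I' → μ' j = 0) →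
      (∀ j ∈ I', 0 < μ' j) → (∀ i, ∑ j, μ j * (v j i : ℚ) = ∑ j, μ' j * (v j i : ℚ)) →
      I = I' ∧ ∑ j, μ j = ∑ j, μ' j := by
    intro I I' μ μ' hI hI' hT hT' h0 hp h0' hp' he
    have hs : ∑ j, μ j = ∑ j, μ' j := by
      have h1 := lev μ fun j hj => h0 j fun h => hj (hI h)
      have h2 := lev μ' fun j hj => h0' j fun h => hj (hI' h)
      have h3 : mk * ∑ j, μ j = mk * ∑ j, μ' j := by
        rw [← h1, ← h2]
        exact Finset.sum_congr rfl fun i _ => by rw [he]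
      exact mul_left_cancel₀ hmk0.ne' h3
    refine ⟨?_, hs⟩
    have hn : ∀ j, 0 ≤ μ j := fun j => by
      by_cases hj : j ∈ I
      · exact (hp j hj).le
      · rw [h0 j hj]
    obtain ⟨J, -, hJ⟩ := hLP r N v ω hG wk mk hwk hmk μ hn (fun j hj => by
      by_contra h
      exact hj (h0 j fun h' => h ((hκ j).mp (hI h'))))
    rw [hJ I ⟨fun j hj => (hκ j).mp (hI hj), hT, μ, h0, hp, fun _ => rfl, rfl⟩,
      hJ I' ⟨fun j hj => (hκ j).mp (hI' hj), hT', μ', h0', hp', fun i => (he i).symm, hs.symm⟩]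
  have ex : ∀ (l : Fin r → ℚ), (∀ j, j ∉ κ → l j = 0) → (∀ j, 0 ≤ l j) →
      ∃ I ⊆ κ, TT v ω I ∧ ∃ μ : Fin r → ℚ, (∀ j, j ∉ I → μ j = 0) ∧ (∀ j ∈ I, 0 < μ j) ∧
        (∀ i, ∑ j, μ j * (v j i : ℚ) = ∑ j, l j * (v j i : ℚ)) ∧ ∑ j, μ j = ∑ j, l j := by
    intro l h0 hl
    obtain ⟨I, ⟨h1, h2, h3⟩, -⟩ := hLP r N v ω hG wk mk hwk hmk l hl (fun j hj => by
      by_contra h
      exact hj (h0 j fun h' => h ((hκ j).mp h')))
    exact ⟨I, fun j hj => (hκ j).mpr (h1 j hj), h2, h3⟩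
  have hn : ∀ (I : Finset (Fin r)) (μ : Fin r → ℚ), (∀ j, j ∉ I → μ j = 0) →
      (∀ j ∈ I, 0 < μ j) → ∀ j, 0 ≤ μ j := by
    intro I μ h0 hp j
    by_cases hj : j ∈ I
    · exact (hp j hj).le
    · rw [h0 j hj]
  have hfin0 := finite_Dil0 v κ k
  have hfin : (Dil v κ k).Finite := hfin0.subset fun x ⟨l, h0, hl, hx, hk⟩ =>
    ⟨l, h0, hl, hx, hk.ge⟩
  refine ⟨?_, ?_⟩
  · refine ncard_sum (Dil v κ k) κ.powerset (TT v ω) (fun I => Rel v I k) hfin (fun x => ?_) ?_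
    · constructor
      · rintro ⟨l, h0, hl, hx, hk⟩
        obtain ⟨I, hI, hT, μ, a, b, c, d⟩ := ex l h0 hl
        exact ⟨I, Finset.mem_powerset.mpr hI, hT, μ, a, b, fun i => (hx i).trans (c i).symm,
          hk.trans d.symm⟩
      · rintro ⟨I, hI, hT, l, h0, hp, hx, hk⟩
        rw [Finset.mem_powerset] at hI
        exact ⟨l, fun j hj => h0 j fun h => hj (hI h), hn I l h0 hp, hx, hk⟩
    · rintro I hI I' hI' hT hT' x ⟨l, h0, hp, hx, hk⟩ ⟨l', h0', hp', hx', hk'⟩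
      rw [Finset.mem_powerset] at hI hI'
      exact (uni I I' l l' hI hI' hT hT' h0 hp h0' hp'
        fun i => (hx i).symm.trans (hx' i)).1
  · have hmem : ∀ x, x ∈ Dil0 v κ k ↔ ∃ I ∈ κ.powerset, TT v ω I ∧ x ∈ (Rel v I k ∪
        Rel (Fin.cons 0 v : Fin (r + 1) → Fin N → ℕ) (insert 0 (I.map (Fin.succEmb r))) k) := by
      intro x
      constructor
      · rintro ⟨l, h0, hl, hx, hk⟩
        obtain ⟨I, hI, hT, μ, a, b, c, d⟩ := ex l h0 hl
        refine ⟨I, Finset.mem_powerset.mpr hI, hT, ?_⟩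
        rcases hk.lt_or_eq with h | h
        · exact Or.inr ((mem_rel0 v I k x).mpr
            ⟨μ, a, b, fun i => (hx i).trans (c i).symm, by rw [d]; exact h⟩)
        · exact Or.inl ⟨μ, a, b, fun i => (hx i).trans (c i).symm, h.symm.trans d.symm⟩
      · rintro ⟨I, hI, hT, h⟩
        rw [Finset.mem_powerset] at hI
        rcases h with ⟨l, h0, hp, hx, hk⟩ | h
        · exact ⟨l, fun j hj => h0 j fun h => hj (hI h), hn I l h0 hp, hx, hk.ge⟩
        · obtain ⟨l, h0, hp, hx, hk⟩ := (mem_rel0 v I k x).mp h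
          exact ⟨l, fun j hj => h0 j fun h => hj (hI h), hn I l h0 hp, hx, hk.le⟩
    have hun : ∀ (I : Finset (Fin r)) (x : Fin N → ℤ), x ∈ (Rel v I k ∪
        Rel (Fin.cons 0 v : Fin (r + 1) → Fin N → ℕ) (insert 0 (I.map (Fin.succEmb r))) k) →
        ∃ μ : Fin r → ℚ, (∀ j, j ∉ I → μ j = 0) ∧ (∀ j ∈ I, 0 < μ j) ∧
        (∀ i, (x i : ℚ) = ∑ j, μ j * (v j i : ℚ)) := by
      rintro I x (⟨l, h0, hp, hx, hk⟩ | h)
      · exact ⟨l, h0, hp, hx⟩
      · obtain ⟨l, h0, hp, hx, hk⟩ := (mem_rel0 v I k x).mp h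
        exact ⟨l, h0, hp, hx⟩
    have key := ncard_sum (Dil0 v κ k) κ.powerset (TT v ω) (fun I => Rel v I k ∪
        Rel (Fin.cons 0 v : Fin (r + 1) → Fin N → ℕ) (insert 0 (I.map (Fin.succEmb r))) k)
      hfin0 hmem (by
        intro I hI I' hI' hT hT' x hx hx'
        rw [Finset.mem_powerset] at hI hI'
        obtain ⟨l, h0, hp, hl⟩ := hun I x hx
        obtain ⟨l', h0', hp', hl'⟩ := hun I' x hx'
        exact (uni I I' l l' hI hI' hT hT' h0 hp h0' hp'
          fun i => (hl i).symm.trans (hl' i)).1)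
    rw [key]
    refine Finset.sum_congr rfl fun I hI => ?_
    by_cases hT : TT v ω I
    · rw [if_pos hT, if_pos hT]
      have hsub : (Rel v I k ∪ Rel (Fin.cons 0 v : Fin (r + 1) → Fin N → ℕ)
          (insert 0 (I.map (Fin.succEmb r))) k) ⊆ Dil0 v κ k :=
        fun x hx => (hmem x).mpr ⟨I, hI, hT, hx⟩
      rw [Finset.mem_powerset] at hI
      refine Set.ncard_union_eq ?_ (hfin0.subset (Set.subset_union_left.trans hsub))
        (hfin0.subset (Set.subset_union_right.trans hsub))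
      rw [Set.disjoint_left]
      rintro x ⟨l, h0, hp, hx, hk⟩ h
      obtain ⟨l', h0', hp', hx', hk'⟩ := (mem_rel0 v I k x).mp h
      have h1 := (uni I I l l' hI hI hT hT h0 hp h0' hp' fun i => (hx i).symm.trans (hx' i)).2
      rw [← h1, ← hk] at hk'
      exact lt_irrefl _ hk'
    · rw [if_neg hT, if_neg hT]

end Pool.Agent.Y212.HX
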