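import Pool.Agent.Y228.HX.Stm3
import Pool.Agent.Y155.HX.BOX

set_option autoImplicit false

/-! # Project HX: the value of the Ehrhart series of a simplex as a rational function -/

namespace Pool.Agent.Y212.HX

open Pool.Agent.Y228.HX Pool.Agent.Y155.HX

variable {K : Type} [Field K] [Algebra ℚ K] {R N : ℕ} (v : Fin R → Fin N → ℕ) (I : Finset (Fin R))

theorem sum_cut (f : ℕ → ℕ) (hf : ∀ k, I.card < k → f k = 0) (z : K) :
    ∑ k ∈ Finset.range (R + 1), (f k : K) * z ^ k =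
      ∑ k ∈ Finset.range (I.card + 1), (f k : K) * z ^ k := by
  symm
  apply Finset.sum_subset
  · intro k hk
    rw [Finset.mem_range] at hk ⊢
    have := card_le' I
    omega
  · intro k _ hk
    rw [Finset.mem_range, not_lt] at hk
    rw [hf k (by omega)]
    simp

theorem aeval_P1 (z : K) : Polynomial.aeval z (P1 v I) =
    ∑ k ∈ Finset.range (I.card + 1), (nBox1 v I k : K) * z ^ k := by
  rw [P1, map_sum, ← sum_cut I _ (fun k hk => nBox1_zero v I hk)]
  refine Finset.sum_congr rfl fun k _ => ?_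
  rw [map_mul, map_pow, Polynomial.aeval_X, Polynomial.aeval_C, map_natCast]

theorem eval_P0Z (z : K) : Polynomial.eval₂ (Int.castRingHom K) z (P0Z v I) =
    ∑ k ∈ Finset.range (I.card + 1), (nBox0 v I k : K) * z ^ k := by
  rw [P0Z, Polynomial.eval₂_finset_sum, ← sum_cut I _ (fun k hk => nBox0_zero v I hk)]
  refine Finset.sum_congr rfl fun k _ => ?_
  rw [Polynomial.eval₂_mul, Polynomial.eval₂_pow, Polynomial.eval₂_X, Polynomial.eval₂_C,
    map_natCast]

theorem P1_flip {z : K} (hz : z ≠ 0) : Polynomial.aeval z (P1 v I) =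
    z ^ I.card * Polynomial.eval₂ (Int.castRingHom K) z⁻¹ (P0Z v I) := by
  rw [aeval_P1, eval_P0Z, Finset.mul_sum,
    ← Finset.sum_flip (fun k => z ^ I.card * ((nBox0 v I k : K) * z⁻¹ ^ k))]
  refine Finset.sum_congr rfl fun k hk => ?_
  have hk' : k ≤ I.card := by
    rw [Finset.mem_range] at hk
    omega
  rw [nBox_flip v I hk']
  have e : z ^ I.card = z ^ (I.card - k) * z ^ k := by
    rw [← pow_add]
    congr 1
    omega
  rw [e, inv_pow]
  have h2 : z ^ (I.card - k) ≠ 0 := pow_ne_zero _ hz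
  field_simp

theorem rati {z : K} (hz : z ≠ 0) (hz1 : 1 - z ≠ 0) (hI : Ind v I) (D : ℕ) (hD : I.card ≤ D) :
    Polynomial.aeval z (P1 v I) / (1 - z) ^ I.card * (1 - z⁻¹) ^ D =
      Polynomial.eval₂ (Int.castRingHom K) z⁻¹ (gN v I D) := by
  have e1 : 1 - z = -(z * (1 - z⁻¹)) := by
    rw [mul_sub, mul_inv_cancel₀ hz]
    ring
  have h5 : 1 - z⁻¹ ≠ 0 := by
    intro h
    apply hz1
    rw [e1, h, mul_zero, neg_zero]
  have e2 : (1 - z) ^ I.card = (-1) ^ I.card * (z ^ I.card * (1 - z⁻¹) ^ I.card) := by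
    rw [e1, neg_eq_neg_one_mul, mul_pow, mul_pow]
  have e3 : (1 - z⁻¹) ^ D = (1 - z⁻¹) ^ I.card * (1 - z⁻¹) ^ (D - I.card) := by
    rw [← pow_add]
    congr 1
    omega
  have h9 : ((-1 : K)) ^ I.card * (-1) ^ I.card = 1 := by
    rw [← mul_pow]
    norm_num
  have h8 : ((-1 : K)) ^ I.card ≠ 0 := pow_ne_zero _ (neg_ne_zero.mpr one_ne_zero)
  have h6 : z ^ I.card ≠ 0 := pow_ne_zero _ hz
  have h7 : (1 - z⁻¹) ^ I.card ≠ 0 := pow_ne_zero _ h5
  have e4 : Polynomial.eval₂ (Int.castRingHom K) z⁻¹ (gN v I D) =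
      (-1) ^ I.card * Polynomial.eval₂ (Int.castRingHom K) z⁻¹ (P0Z v I) *
        (1 - z⁻¹) ^ (D - I.card) := by
    rw [gN, if_pos hI]
    simp only [Polynomial.eval₂_mul, Polynomial.eval₂_pow, Polynomial.eval₂_sub,
      Polynomial.eval₂_neg, Polynomial.eval₂_one, Polynomial.eval₂_X]
  rw [e4, P1_flip v I hz, e2, e3, div_mul_eq_mul_div, div_eq_iff
    (mul_ne_zero h8 (mul_ne_zero h6 h7))]
  linear_combination (-(z ^ I.card * Polynomial.eval₂ (Int.castRingHom K) z⁻¹ (P0Z v I) *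
    ((1 - z⁻¹) ^ I.card * (1 - z⁻¹) ^ (D - I.card)))) * h9

theorem t_RATI : S_RATI := by
  intro R N v I hI D hD
  have h1 : (1 : RatFunc ℚ) - RatFunc.X ≠ 0 := by
    intro h
    have h2 : (algebraMap (Polynomial ℚ) (RatFunc ℚ)) (1 - Polynomial.X) = 0 := by
      rw [map_sub, map_one, RatFunc.algebraMap_X, h]
    have h3 : (1 - Polynomial.X : Polynomial ℚ) = 0 :=
      (map_eq_zero_iff _ (RatFunc.algebraMap_injective ℚ)).mp h2
    have h4 := congrArg (fun p => Polynomial.eval 0 p) h3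
    simp at h4
  exact rati v I RatFunc.X_ne_zero h1 hI D hD

end Pool.Agent.Y212.HX
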